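import Mathlib

/-! Stationary generalized Bratteli diagrams: path space, cylinder sets, tail-invariant measures. -/

namespace Pool.Agent.LibBratteli

open MeasureTheory Set

variable {V : Type}

/-- The edges between two consecutive levels of the stationary diagram with incidence matrix `F`,
where `F v w` is the number of edges with source `w` and range `v`. -/
structure Edge (F : V → V → ℕ) where
  /-- source of the edge -/
  src : V
  /-- range of the edge -/
  rng : V
  /-- label distinguishing parallel edges -/
  idx : Fin (F rng src)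

/-- The path space: infinite sequences of edges, each starting where the previous one ends. -/
def PathSpace (F : V → V → ℕ) : Type :=
  {x : ℕ → Edge F // ∀ i, (x i).rng = (x (i + 1)).src}

/-- A finite path with `n + 1` edges that starts at level `0`. -/
structure FinPath (F : V → V → ℕ) (n : ℕ) where
  /-- the edges of the path -/
  edge : Fin (n + 1) → Edge F
  /-- consecutive edges are composable -/
  compat : ∀ i : Fin n, (edge i.castSucc).rng = (edge i.succ).src

variable {F : V → V → ℕ}

/-- The vertex (of level `n + 1`) where a finite path ends. -/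
def FinPath.last {n : ℕ} (e : FinPath F n) : V := (e.edge (Fin.last n)).rng

/-- The cylinder set of a finite path: all infinite paths that begin with it. -/
def cyl {n : ℕ} (e : FinPath F n) : Set (PathSpace F) :=
  {x | ∀ i : Fin (n + 1), x.1 i = e.edge i}

/-- The Borel sigma-algebra of the path space, generated by the cylinder sets. -/
instance (F : V → V → ℕ) : MeasurableSpace (PathSpace F) :=
  MeasurableSpace.generateFrom {S | ∃ (n : ℕ) (e : FinPath F n), S = cyl e}

/-- Tail-invariant measures: nonzero measures giving the same mass to the cylinder sets of any two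
finite paths (from level `0`) that end at the same vertex. -/
def TailInvariant (μ : Measure (PathSpace F)) : Prop :=
  μ ≠ 0 ∧ ∀ (n : ℕ) (e e' : FinPath F n), e.last = e'.last → μ (cyl e) = μ (cyl e')

/-! ### Basic lemmas -/

theorem Edge.ext' {e e' : Edge F} (h1 : e.src = e'.src) (h2 : e.rng = e'.rng)
    (h3 : (e.idx : ℕ) = (e'.idx : ℕ)) : e = e' := by
  cases e with
  | mk s r i =>
    cases e' with
    | mk s' r' i' =>
      simp only at h1 h2 h3
      subst h1; subst h2
      have : i = i' := Fin.ext h3
      rw [this]

instance [Countable V] : Countable (Edge F) := by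
  have : Function.Injective (fun e : Edge F => (e.src, e.rng, (e.idx : ℕ))) := by
    intro e e' h
    simp only [Prod.mk.injEq] at h
    exact Edge.ext' h.1 h.2.1 h.2.2
  exact this.countable

theorem measurableSet_cyl {n : ℕ} (e : FinPath F n) : MeasurableSet (cyl e) :=
  MeasurableSpace.measurableSet_generateFrom ⟨n, e, rfl⟩

/-- Extension of a finite path by one edge. -/
def FinPath.snoc {n : ℕ} (e : FinPath F n) (f : Edge F) (h : e.last = f.src) :
    FinPath F (n + 1) where
  edge := Fin.snoc e.edge f
  compat := by
    intro i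
    refine Fin.lastCases ?_ ?_ i
    · rw [Fin.snoc_castSucc, Fin.succ_last, Fin.snoc_last]
      exact h
    · intro j
      rw [Fin.snoc_castSucc, Fin.succ_castSucc, Fin.snoc_castSucc]
      exact e.compat j

theorem FinPath.last_snoc {n : ℕ} (e : FinPath F n) (f : Edge F) (h : e.last = f.src) :
    (e.snoc f h).last = f.rng := by
  simp [FinPath.last, FinPath.snoc]

theorem mem_cyl_snoc {n : ℕ} (e : FinPath F n) (f : Edge F) (h : e.last = f.src)
    (x : PathSpace F) : x ∈ cyl (e.snoc f h) ↔ x ∈ cyl e ∧ x.1 (n + 1) = f := by
  constructor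
  · intro hx
    refine ⟨fun i => ?_, ?_⟩
    · have := hx i.castSucc
      simpa [FinPath.snoc] using this
    · have := hx (Fin.last (n + 1))
      simpa [FinPath.snoc] using this
  · rintro ⟨h1, h2⟩ i
    refine Fin.lastCases ?_ ?_ i
    · simpa [FinPath.snoc] using h2
    · intro j
      have := h1 j
      simpa [FinPath.snoc] using this

theorem cyl_eq_iUnion {n : ℕ} (e : FinPath F n) :
    cyl e = ⋃ f : {f : Edge F // e.last = f.src}, cyl (e.snoc f.1 f.2) := by
  ext x
  rw [mem_iUnion]
  constructor
  · intro hx
    have h1 : e.last = (x.1 (n + 1)).src := by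
      have h2 := x.2 n
      have h3 := hx (Fin.last n)
      simp only [Fin.val_last] at h3
      rw [h3] at h2
      exact h2
    exact ⟨⟨x.1 (n + 1), h1⟩, (mem_cyl_snoc _ _ _ _).2 ⟨hx, rfl⟩⟩
  · rintro ⟨f, hf⟩
    exact ((mem_cyl_snoc _ _ _ _).1 hf).1

theorem disjoint_cyl_snoc {n : ℕ} (e : FinPath F n) (f g : {f : Edge F // e.last = f.src})
    (hfg : f ≠ g) : Disjoint (cyl (e.snoc f.1 f.2)) (cyl (e.snoc g.1 g.2)) := by
  rw [Set.disjoint_left]
  intro x hx hy
  apply hfg
  apply Subtype.ext
  rw [← ((mem_cyl_snoc _ _ _ _).1 hx).2, ← ((mem_cyl_snoc _ _ _ _).1 hy).2]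

/-- Additivity over the one-edge extensions. -/
theorem measure_cyl_eq_tsum [Countable V] (μ : Measure (PathSpace F)) {n : ℕ} (e : FinPath F n) :
    μ (cyl e) = ∑' f : {f : Edge F // e.last = f.src}, μ (cyl (e.snoc f.1 f.2)) := by
  conv_lhs => rw [cyl_eq_iUnion e]
  rw [measure_iUnion]
  · intro f g hfg
    exact disjoint_cyl_snoc e f g hfg
  · intro f
    exact measurableSet_cyl _

/-- The one-edge path. -/
def FinPath.single (f : Edge F) : FinPath F 0 where
  edge := fun _ => f
  compat := fun i => i.elim0

theorem univ_eq_iUnion : (univ : Set (PathSpace F)) = ⋃ f : Edge F, cyl (FinPath.single f) := by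
  symm
  rw [eq_univ_iff_forall]
  intro x
  rw [mem_iUnion]
  refine ⟨x.1 0, fun i => ?_⟩
  have : i = 0 := Fin.eq_zero i
  subst this
  rfl

theorem exists_pos_single [Countable V] (μ : Measure (PathSpace F)) (hμ : μ ≠ 0) :
    ∃ f : Edge F, μ (cyl (FinPath.single f)) ≠ 0 := by
  by_contra hcon
  push Not at hcon
  apply hμ
  rw [← Measure.measure_univ_eq_zero, univ_eq_iUnion]
  exact measure_iUnion_null hcon

end Pool.Agent.LibBratteli
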