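import Pool.Agent.LibBratteli.Basic

/-! Tail-invariant measures on stationary diagrams with a loop at every vertex: the cylinder masses
of a fixed vertex are log-convex in the level. -/

namespace Pool.Agent.LibBratteli

open MeasureTheory Set Finset

/-! ### A real-variable lemma -/

theorem binom_logconv (N : ℕ) (l : ℕ → ℝ) (hl : ∀ m, 0 ≤ l m) :
    (∑ m ∈ range (N + 3), ((N + 1).choose m : ℝ) * l m) ^ 2 ≤
      (∑ m ∈ range (N + 3), ((N + 2).choose m : ℝ) * l m) *
        ((N + 1 : ℝ) / (N + 2) * (∑ m ∈ range (N + 3), (N.choose m : ℝ) * l m)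
          + 1 / (N + 2) * (∑ m ∈ range (N + 3), ((N + 1).choose m : ℝ) * l m)) := by
  have hN : (0 : ℝ) < (N : ℝ) + 2 := by positivity
  have hN1 : (0 : ℝ) < (N : ℝ) + 1 := by positivity
  have c1 : ∀ m ∈ range (N + 3),
      ((N + 1).choose m : ℝ) = ((N + 2).choose m : ℝ) * (((N : ℝ) + 2 - m) / (N + 2)) := by
    intro m hm
    have hm' : m ≤ N + 2 := by have := Finset.mem_range.1 hm; omega
    have h := Nat.choose_mul_succ_eq (N + 1) m
    have h' : ((N + 1).choose m : ℝ) * ((N : ℝ) + 2) = ((N + 2).choose m : ℝ) * ((N : ℝ) + 2 - m) := by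
      have := congrArg (Nat.cast : ℕ → ℝ) h
      rw [Nat.cast_mul, Nat.cast_mul, Nat.cast_sub (by omega)] at this
      push_cast at this
      rw [show (N : ℝ) + 2 = (N : ℝ) + 1 + 1 by ring]
      exact this
    field_simp
    linarith
  have c2 : ∀ m ∈ range (N + 3),
      (N.choose m : ℝ) = ((N + 2).choose m : ℝ) *
        ((((N : ℝ) + 2 - m) * ((N : ℝ) + 1 - m)) / ((N + 2) * (N + 1))) := by
    intro m hm
    have hm' : m ≤ N + 2 := by have := Finset.mem_range.1 hm; omega
    rcases Nat.lt_or_ge (N + 1) m with h2 | h2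
    · have : m = N + 2 := by omega
      subst this
      rw [Nat.choose_eq_zero_of_lt (by omega : N < N + 2)]
      push_cast
      simp
    · have h := Nat.choose_mul_succ_eq N m
      have h' : (N.choose m : ℝ) * ((N : ℝ) + 1) = ((N + 1).choose m : ℝ) * ((N : ℝ) + 1 - m) := by
        have := congrArg (Nat.cast : ℕ → ℝ) h
        rw [Nat.cast_mul, Nat.cast_mul, Nat.cast_sub (by omega)] at this
        push_cast at this
        exact this
      rw [c1 m hm] at h'
      field_simp at h' ⊢
      linarith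
  set w : ℕ → ℝ := fun m => ((N + 2).choose m : ℝ) * l m with hw
  have hw0 : ∀ m, 0 ≤ w m := fun m => mul_nonneg (Nat.cast_nonneg _) (hl m)
  set x : ℕ → ℝ := fun m => ((N : ℝ) + 2 - m) / (N + 2) with hx
  have e1 : ∑ m ∈ range (N + 3), ((N + 1).choose m : ℝ) * l m = ∑ m ∈ range (N + 3), w m * x m := by
    apply sum_congr rfl
    intro m hm
    rw [c1 m hm]; simp only [hw, hx]; ring
  have e2 : (N + 1 : ℝ) / (N + 2) * (∑ m ∈ range (N + 3), (N.choose m : ℝ) * l m)
          + 1 / (N + 2) * (∑ m ∈ range (N + 3), ((N + 1).choose m : ℝ) * l m)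
        = ∑ m ∈ range (N + 3), w m * x m ^ 2 := by
    rw [mul_sum, mul_sum, ← sum_add_distrib]
    apply sum_congr rfl
    intro m hm
    rw [c1 m hm, c2 m hm]; simp only [hw, hx]
    field_simp
    ring
  rw [e2, e1]
  have hcs := Finset.sum_mul_sq_le_sq_mul_sq (range (N + 3)) (fun m => Real.sqrt (w m))
    (fun m => Real.sqrt (w m) * x m)
  have f1 : ∑ m ∈ range (N + 3), Real.sqrt (w m) * (Real.sqrt (w m) * x m)
      = ∑ m ∈ range (N + 3), w m * x m := by
    apply sum_congr rfl; intro m _
    rw [← mul_assoc, Real.mul_self_sqrt (hw0 m)]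
  have f2 : ∑ m ∈ range (N + 3), Real.sqrt (w m) ^ 2 = ∑ m ∈ range (N + 3), w m := by
    apply sum_congr rfl; intro m _
    rw [Real.sq_sqrt (hw0 m)]
  have f3 : ∑ m ∈ range (N + 3), (Real.sqrt (w m) * x m) ^ 2
      = ∑ m ∈ range (N + 3), w m * x m ^ 2 := by
    apply sum_congr rfl; intro m _
    rw [mul_pow, Real.sq_sqrt (hw0 m)]
  rw [f1, f2, f3] at hcs
  exact hcs

theorem limit_le (a0 a1 a2 : ℝ)
    (h : ∀ N : ℕ, a1 ^ 2 ≤ a0 * ((N + 1 : ℝ) / (N + 2) * a2 + 1 / (N + 2) * a1)) :
    a1 ^ 2 ≤ a0 * a2 := by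
  have l1 : Filter.Tendsto (fun N : ℕ => (1 : ℝ) / ((N : ℝ) + 2)) Filter.atTop (nhds 0) := by
    have := (tendsto_one_div_add_atTop_nhds_zero_nat (𝕜 := ℝ)).comp (Filter.tendsto_add_atTop_nat 1)
    refine this.congr (fun N => ?_)
    simp only [Function.comp]
    push_cast
    congr 1; ring
  have l2 : Filter.Tendsto (fun N : ℕ => ((N : ℝ) + 1) / ((N : ℝ) + 2)) Filter.atTop (nhds 1) := by
    have := l1.const_sub 1
    rw [sub_zero] at this
    refine this.congr (fun N => ?_)
    have hN : (0 : ℝ) < (N : ℝ) + 2 := by positivity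
    field_simp
    ring
  have l3 : Filter.Tendsto (fun N : ℕ => a0 * (((N : ℝ) + 1) / ((N : ℝ) + 2) * a2
      + 1 / ((N : ℝ) + 2) * a1)) Filter.atTop (nhds (a0 * (1 * a2 + 0 * a1))) :=
    ((l2.mul_const a2).add (l1.mul_const a1)).const_mul a0
  rw [one_mul, zero_mul, add_zero] at l3
  exact ge_of_tendsto' l3 h

/-! ### The transfer operator -/

variable {V : Type}

/-- The operator `g ↦ (w ↦ ∑ v, F v w * g v)` on `[0,∞]`-valued functions. -/
noncomputable def op (F : V → V → ℕ) : (V → ENNReal) →+ (V → ENNReal) where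
  toFun g := fun w => ∑' v, (F v w : ENNReal) * g v
  map_zero' := by ext w; simp
  map_add' g h := by
    ext w
    simp only [Pi.add_apply, mul_add]
    exact ENNReal.tsum_add

theorem op_apply (F : V → V → ℕ) (g : V → ENNReal) (w : V) :
    op F g w = ∑' v, (F v w : ENNReal) * g v := rfl

theorem le_op (F : V → V → ℕ) (g : V → ENNReal) (v w : V) :
    (F v w : ENNReal) * g v ≤ op F g w :=
  ENNReal.le_tsum v

/-- Edges leaving `w`. -/
def edgeEquiv (F : V → V → ℕ) (w : V) : (Σ v : V, Fin (F v w)) ≃ {f : Edge F // w = f.src} where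
  toFun s := ⟨⟨w, s.1, s.2⟩, rfl⟩
  invFun := fun ⟨⟨s, r, i⟩, h⟩ => ⟨r, by simp only at h; subst h; exact i⟩
  left_inv := by
    rintro ⟨v, i⟩
    rfl
  right_inv := by
    rintro ⟨⟨s, r, i⟩, h⟩
    simp only at h
    subst h
    rfl

/-- The sum over edges leaving `w`. -/
theorem tsum_edges (F : V → V → ℕ) (g : V → ENNReal) (w : V) :
    ∑' f : {f : Edge F // w = f.src}, g f.1.rng = op F g w := by
  rw [← (edgeEquiv F w).tsum_eq, op_apply]
  have : ∀ c : (Σ v : V, Fin (F v w)), g ((edgeEquiv F w) c).1.rng = g c.1 := fun c => rfl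
  simp_rw [this]
  rw [ENNReal.tsum_sigma (fun v (_ : Fin (F v w)) => g v)]
  congr 1
  ext v
  simp

/-! ### Masses of vertices for a tail-invariant measure -/

variable {F : V → V → ℕ}

/-- The constant path of `n + 1` loops at `v`. -/
def loopPath (hF : ∀ v, 0 < F v v) (n : ℕ) (v : V) : FinPath F n where
  edge := fun _ => ⟨v, v, ⟨0, hF v⟩⟩
  compat := fun _ => rfl

theorem last_loopPath (hF : ∀ v, 0 < F v v) (n : ℕ) (v : V) : (loopPath hF n v).last = v := rfl

/-- The mass of the cylinder sets ending at `v` at level `n + 1`. -/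
noncomputable def mass (hF : ∀ v, 0 < F v v) (μ : Measure (PathSpace F)) (n : ℕ) (v : V) :
    ENNReal := μ (cyl (loopPath hF n v))

theorem measure_cyl_eq_mass (hF : ∀ v, 0 < F v v) {μ : Measure (PathSpace F)}
    (hμ : TailInvariant μ) {n : ℕ} (e : FinPath F n) : μ (cyl e) = mass hF μ n e.last :=
  hμ.2 n e (loopPath hF n e.last) rfl

theorem mass_step [Countable V] (hF : ∀ v, 0 < F v v) {μ : Measure (PathSpace F)}
    (hμ : TailInvariant μ) (n : ℕ) : mass hF μ n = op F (mass hF μ (n + 1)) := by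
  ext w
  rw [← tsum_edges]
  have h := measure_cyl_eq_tsum μ (loopPath hF n w)
  have h2 : ∀ f : {f : Edge F // (loopPath hF n w).last = f.src},
      μ (cyl ((loopPath hF n w).snoc f.1 f.2)) = mass hF μ (n + 1) f.1.rng := by
    intro f
    rw [measure_cyl_eq_mass hF hμ, FinPath.last_snoc]
  simp_rw [h2] at h
  exact h

theorem mass_iterate [Countable V] (hF : ∀ v, 0 < F v v) {μ : Measure (PathSpace F)}
    (hμ : TailInvariant μ) (n N : ℕ) : mass hF μ n = (op F)^[N] (mass hF μ (n + N)) := by
  induction N generalizing n with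
  | zero => simp
  | succ N ih =>
    rw [Function.iterate_succ_apply', mass_step hF hμ n, ih (n + 1)]
    congr 3
    omega

/-- The matrix with one loop removed at each vertex. -/
def sub1 [DecidableEq V] (F : V → V → ℕ) : V → V → ℕ :=
  fun v w => if v = w then F v w - 1 else F v w

theorem op_split [DecidableEq V] (hF : ∀ v, 0 < F v v) (g : V → ENNReal) :
    op F g = g + op (sub1 F) g := by
  ext w
  rw [Pi.add_apply, op_apply, op_apply]
  have h1 : g w = ∑' v, (if v = w then 1 else 0) * g v := by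
    rw [tsum_eq_single w]
    · simp
    · intro v hv; simp [hv]
  rw [h1, ← ENNReal.tsum_add]
  congr 1
  ext v
  by_cases hv : v = w
  · subst hv
    have : (F v v : ENNReal) = 1 + ((F v v - 1 : ℕ) : ENNReal) := by
      have h := hF v
      have : F v v = 1 + (F v v - 1) := by omega
      conv_lhs => rw [this]
      push_cast; rfl
    simp only [if_true, sub1]
    rw [this]; ring
  · simp [hv, sub1]

theorem iter_expand (A G : (V → ENNReal) →+ (V → ENNReal)) (h : ∀ g, A g = g + G g) (N : ℕ)
    (g : V → ENNReal) :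
    A^[N] g = ∑ m ∈ range (N + 1), (N.choose m) • (G^[m] g) := by
  induction N with
  | zero => simp
  | succ N ih =>
    rw [Function.iterate_succ_apply', ih, h, map_sum]
    simp_rw [map_nsmul, ← Function.iterate_succ_apply' G]
    have hb : ∑ m ∈ range (N + 1), (N.choose m) • (G^[m] g)
        = ∑ m ∈ range (N + 1), (N.choose (m + 1)) • (G^[m + 1] g) + G^[0] g := by
      rw [sum_range_succ' (fun m => (N.choose m) • (G^[m] g))]
      rw [sum_range_succ (fun m => (N.choose (m + 1)) • (G^[m + 1] g))]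
      simp
    rw [sum_range_succ' (fun m => ((N + 1).choose m) • (G^[m] g)), hb]
    simp_rw [Nat.choose_succ_succ, add_smul, sum_add_distrib]
    simp
    abel

/-- **Log-convexity**: for a tail-invariant measure that is finite on cylinder sets, the masses of a
fixed vertex are log-convex in the level. -/
theorem mass_logconv [Countable V] (hF : ∀ v, 0 < F v v) {μ : Measure (PathSpace F)}
    (hμ : TailInvariant μ) (hfin : ∀ (n : ℕ) (e : FinPath F n), μ (cyl e) < ⊤) (n : ℕ) (w : V) :
    (mass hF μ (n + 1) w).toReal ^ 2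
      ≤ (mass hF μ n w).toReal * (mass hF μ (n + 2) w).toReal := by
  classical
  apply limit_le
  intro N
  set G := op (sub1 F) with hG
  set g := mass hF μ (n + (N + 2)) with hg
  have hfin' : ∀ k v, mass hF μ k v ≠ ⊤ := fun k v => (hfin k _).ne
  have hA := iter_expand (op F) G (fun g => op_split hF g)
  have e0 : mass hF μ n w = ∑ m ∈ range (N + 3), ((N + 2).choose m : ENNReal) * (G^[m] g w) := by
    rw [mass_iterate hF hμ n (N + 2), hA, Finset.sum_apply]
    simp [hg]
  have hl : ∀ m ∈ range (N + 3), G^[m] g w ≠ ⊤ := by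
    intro m hm htop
    apply hfin' n w
    rw [e0, ENNReal.sum_eq_top]
    refine ⟨m, hm, ?_⟩
    rw [htop, ENNReal.mul_top]
    have : 0 < (N + 2).choose m := Nat.choose_pos (by have := Finset.mem_range.1 hm; omega)
    exact_mod_cast this.ne'
  have e1 : mass hF μ (n + 1) w = ∑ m ∈ range (N + 3), ((N + 1).choose m : ENNReal) * (G^[m] g w) := by
    rw [mass_iterate hF hμ (n + 1) (N + 1), hA, Finset.sum_apply, sum_range_succ _ (N + 2),
      Nat.choose_eq_zero_of_lt (by omega : N + 1 < N + 2)]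
    rw [show n + 1 + (N + 1) = n + (N + 2) by ring]
    simp [hg]
  have e2 : mass hF μ (n + 2) w = ∑ m ∈ range (N + 3), (N.choose m : ENNReal) * (G^[m] g w) := by
    rw [mass_iterate hF hμ (n + 2) N, hA, Finset.sum_apply, sum_range_succ _ (N + 2),
      sum_range_succ _ (N + 1),
      Nat.choose_eq_zero_of_lt (by omega : N < N + 2),
      Nat.choose_eq_zero_of_lt (by omega : N < N + 1)]
    rw [show n + 2 + N = n + (N + 2) by ring]
    simp [hg]
  set l : ℕ → ℝ := fun m => (G^[m] g w).toReal with hldef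
  have tr : ∀ k : ℕ, (∑ m ∈ range (N + 3), (k.choose m : ENNReal) * (G^[m] g w)).toReal
      = ∑ m ∈ range (N + 3), (k.choose m : ℝ) * l m := by
    intro k
    rw [ENNReal.toReal_sum]
    · apply sum_congr rfl
      intro m _
      rw [ENNReal.toReal_mul, ENNReal.toReal_natCast]
    · intro m hm
      exact ENNReal.mul_ne_top (ENNReal.natCast_ne_top _) (hl m hm)
  rw [e0, e1, e2, tr, tr, tr]
  exact binom_logconv N l (fun m => ENNReal.toReal_nonneg)

end Pool.Agent.LibBratteli
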