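import Pool.Agent.LibBratteli.Basic

/-! Powers of a row-finite nonnegative integer matrix, irreducibility, aperiodicity, and infinite
Perron eigenvalue. -/

namespace Pool.Agent.LibBratteli

open Set

variable {V : Type}

/-- `F` is the incidence matrix of a stationary generalized Bratteli diagram: every vertex meets
only finitely many edges, emits at least one edge and receives at least one edge. -/
structure IsIncidence (F : V → V → ℕ) : Prop where
  /-- finitely many edges end at each vertex -/
  row_finite : ∀ v, {w | F v w ≠ 0}.Finite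
  /-- finitely many edges start at each vertex -/
  col_finite : ∀ w, {v | F v w ≠ 0}.Finite
  /-- every vertex emits an edge -/
  emits : ∀ w, ∃ v, F v w ≠ 0
  /-- every vertex receives an edge -/
  receives : ∀ v, ∃ w, F v w ≠ 0

open Classical in
/-- The entries of the matrix powers: `pw F n i j` is the `(i,j)` entry of the `n`-th power of the
row-finite matrix `F`. -/
noncomputable def pw (F : V → V → ℕ) : ℕ → V → V → ℕ
  | 0, i, j => if i = j then 1 else 0
  | n + 1, i, j => ∑ᶠ k, F i k * pw F n k j

/-- Irreducibility: all entries are positive in some positive power. -/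
def MatIrreducible (F : V → V → ℕ) : Prop := ∀ i j, ∃ n, 0 < n ∧ 0 < pw F n i j

/-- Aperiodicity: for every `i`, the greatest common divisor of `{n : (F^n) i i > 0}` is `1`. -/
def MatAperiodic (F : V → V → ℕ) : Prop := ∀ i, ∀ d : ℕ, (∀ n, 0 < pw F n i i → d ∣ n) → d = 1

/-- The Perron eigenvalue is infinite: `((F^n) i j)^(1/n)` tends to infinity for all `i j`. -/
def PerronInfinite (F : V → V → ℕ) : Prop :=
  ∀ i j, Filter.Tendsto (fun n : ℕ => (pw F n i j : ℝ) ^ (1 / (n : ℝ))) Filter.atTop Filter.atTop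

section
variable {F : V → V → ℕ} (hrow : ∀ v, {w | F v w ≠ 0}.Finite)
include hrow

theorem pw_succ (n : ℕ) (i j : V) :
    pw F (n + 1) i j = ∑ k ∈ (hrow i).toFinset, F i k * pw F n k j := by
  rw [pw]
  apply finsum_eq_sum_of_support_subset
  intro k hk
  simp only [Set.Finite.coe_toFinset, Set.mem_ofPred_eq]
  intro h
  apply hk
  simp [h]

theorem pw_step (n : ℕ) (i k j : V) : F i k * pw F n k j ≤ pw F (n + 1) i j := by
  rw [pw_succ hrow]
  by_cases h : F i k = 0
  · simp [h]
  · exact Finset.single_le_sum (f := fun k => F i k * pw F n k j) (fun _ _ => Nat.zero_le _)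
      (by simpa using h)

theorem pw_mul_le (a b : ℕ) (i k j : V) : pw F a i k * pw F b k j ≤ pw F (a + b) i j := by
  induction a generalizing i with
  | zero =>
    rw [pw]
    by_cases h : i = k
    · subst h; simp
    · simp [h]
  | succ a ih =>
    rw [pw_succ hrow, Finset.sum_mul, show a + 1 + b = (a + b) + 1 by ring, pw_succ hrow]
    apply Finset.sum_le_sum
    intro l _
    rw [mul_assoc]
    exact Nat.mul_le_mul_left _ (ih l)

theorem pw_one (i j : V) : pw F 1 i j = F i j := by
  classical
  rw [pw_succ hrow]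
  simp only [pw]
  by_cases h : F i j = 0
  · rw [h]
    apply Finset.sum_eq_zero
    intro k _
    by_cases hk : k = j
    · subst hk; simp [h]
    · simp [hk]
  · rw [Finset.sum_eq_single j]
    · simp
    · intro k _ hk; simp [hk]
    · intro hj; simp at hj; simp [hj]

theorem pw_loop (n : ℕ) (i : V) : F i i ^ n ≤ pw F n i i := by
  induction n with
  | zero => simp [pw]
  | succ n ih =>
    refine le_trans ?_ (pw_step hrow n i i i)
    rw [pow_succ, mul_comm]
    exact Nat.mul_le_mul_left _ ih

theorem perronInfinite_of (hirr : MatIrreducible F) (hdiag : ∀ K : ℕ, ∃ k, K ≤ F k k) :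
    PerronInfinite F := by
  intro i j
  rw [Filter.tendsto_atTop]
  intro C
  obtain ⟨K, hK⟩ := exists_nat_ge (max (C ^ 2) 1)
  obtain ⟨k, hk⟩ := hdiag K
  obtain ⟨a, _, ha⟩ := hirr i k
  obtain ⟨b, _, hb⟩ := hirr k j
  have hK1 : (1 : ℝ) ≤ K := le_trans (le_max_right _ _) hK
  have hKC : C ^ 2 ≤ K := le_trans (le_max_left _ _) hK
  have hbound : ∀ t, K ^ t ≤ pw F (a + t + b) i j := by
    intro t
    have h1 := pw_mul_le hrow a t i k k
    have h2 := pw_mul_le hrow (a + t) b i k j
    have h3 := pw_loop hrow t k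
    calc K ^ t ≤ F k k ^ t := Nat.pow_le_pow_left hk t
      _ ≤ pw F t k k := h3
      _ ≤ pw F a i k * pw F t k k := Nat.le_mul_of_pos_left _ ha
      _ ≤ pw F (a + t) i k := h1
      _ ≤ pw F (a + t) i k * pw F b k j := Nat.le_mul_of_pos_right _ hb
      _ ≤ _ := h2
  filter_upwards [Filter.eventually_ge_atTop (2 * (a + b) + 1)] with n hn
  have hn0 : (0 : ℝ) < n := by exact_mod_cast (by omega : 0 < n)
  have h1 : (K : ℝ) ^ (n - (a + b)) ≤ pw F n i j := by
    have := hbound (n - (a + b))
    rw [show a + (n - (a + b)) + b = n by omega] at this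
    exact_mod_cast this
  have h2 : ((K : ℝ) ^ (n - (a + b))) ^ (1 / (n : ℝ)) ≤ (pw F n i j : ℝ) ^ (1 / (n : ℝ)) :=
    Real.rpow_le_rpow (by positivity) h1 (by positivity)
  refine le_trans ?_ h2
  rw [← Real.rpow_natCast, ← Real.rpow_mul (by positivity)]
  have h3 : (1 / 2 : ℝ) ≤ ((n - (a + b) : ℕ) : ℝ) * (1 / (n : ℝ)) := by
    rw [Nat.cast_sub (by omega), mul_one_div, le_div_iff₀ hn0]
    have : (2 * (a + b) + 1 : ℝ) ≤ n := by exact_mod_cast hn
    push_cast
    linarith
  calc C ≤ Real.sqrt K := Real.le_sqrt_of_sq_le hKC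
    _ = (K : ℝ) ^ (1 / 2 : ℝ) := Real.sqrt_eq_rpow _
    _ ≤ _ := Real.rpow_le_rpow_of_exponent_le hK1 h3

end

end Pool.Agent.LibBratteli
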